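import Pool.Agent.Helper5.FRC.Defs

/-!
# Packet TWO (project FRC, MP_79b960_co): two odd circuits
-/

set_option autoImplicit false

namespace Pool.Agent.Helper71.FRC.TWO

open Finset
open Pool.Agent.Helper5.FRC

section

variable {V : Type} [DecidableEq V]

/-- parity of the cut -/
theorem odd_dm (A S : Finset V) (t : V → V) (ht : Prg A t) (hS : S ⊆ A) (ho : Odd S.card) :
    Odd (dm t S) := by
  have h1 : (S.filter fun x => t x ∈ S).card + (S.filter fun x => ¬ t x ∈ S).card = S.card :=
    Finset.card_filter_add_card_filter_not _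
  have h2 : Even (S.filter fun x => t x ∈ S).card := by
    rw [← ZMod.natCast_eq_zero_iff_even]
    have h3 : ∑ x ∈ S.filter (fun x => t x ∈ S), (1 : ZMod 2) = 0 := by
      refine Finset.sum_involution (fun a _ => t a) ?_ ?_ ?_ ?_
      · intro a _
        decide
      · intro a ha _
        exact (ht a (hS (Finset.mem_filter.mp ha).1)).2.2
      · intro a ha
        have ha' := Finset.mem_filter.mp ha
        rw [Finset.mem_filter]
        refine ⟨ha'.2, ?_⟩
        rw [(ht a (hS ha'.1)).2.1]
        exact ha'.1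
      · intro a ha
        exact (ht a (hS (Finset.mem_filter.mp ha).1)).2.1
    simpa using h3
  have h4 : dm t S = (S.filter fun x => ¬ t x ∈ S).card := rfl
  rw [h4]
  rw [← h1, Nat.odd_add'] at ho
  exact ho.mpr h2

/-- at least three edges leave an odd closed set -/
theorem three_le (n : Equiv.Perm V) (A S : Finset V) (t : V → V) (ht : Prg A t) (hb : Bc n A t)
    (hS : S ⊆ A) (hi : Inv n S) (ho : Odd S.card) : 3 ≤ dm t S := by
  have h1 := odd_dm A S t ht hS ho
  have h2 := hb S hS hi ho
  obtain ⟨k, hk⟩ := h1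
  omega

end

theorem t (hN : NprStmt) : TwoStmt := by
  intro V _ _ n A t C hn ht hb hC hodd hdis hA
  have hmem : ∀ v, v ∈ A ↔ v ∈ C 0 ∨ v ∈ C 1 := by
    intro v
    rw [hA]
    simp [Fin.exists_fin_two]
  have h0A : C 0 ⊆ A := fun v hv => (hmem v).mpr (Or.inl hv)
  have h1A : C 1 ⊆ A := fun v hv => (hmem v).mpr (Or.inr hv)
  have hd : ∀ v, v ∈ C 0 → v ∉ C 1 := by
    intro v h0 h1
    exact Finset.disjoint_left.mp (hdis 0 1 (by decide)) h0 h1
  have h3 := three_le n A (C 0) t ht hb h0A (hC 0).2.1 (hodd 0)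
  obtain ⟨x, hx⟩ : ((C 0).filter fun x => t x ∉ C 0).Nonempty := by
    rw [← Finset.card_pos]
    exact lt_of_lt_of_le (by norm_num) h3
  rw [Finset.mem_filter] at hx
  obtain ⟨hx0, hx1⟩ := hx
  have htx : t x ∈ C 1 := by
    have := (ht x (h0A hx0)).1
    rcases (hmem _).mp this with h | h
    · exact absurd h hx1
    · exact h
  obtain ⟨q0, hq0⟩ := hN V n (C 0) (hC 0) (hodd 0) x hx0
  obtain ⟨q1, hq1⟩ := hN V n (C 1) (hC 1) (hodd 1) (t x) htx
  have hP0 : ∀ v, v ∈ C 0 → (if v ∈ C 0 then q0 v else q1 v) = q0 v := by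
    intro v hv
    rw [if_pos hv]
  have hP1 : ∀ v, v ∈ C 1 → (if v ∈ C 0 then q0 v else q1 v) = q1 v := by
    intro v hv
    rw [if_neg (fun h => hd v h hv)]
  have key : ∀ v ∈ A, (if v ∈ C 0 then q0 v else q1 v) = v → v = x ∨ v = t x := by
    intro v hv hPv
    rcases (hmem v).mp hv with h | h
    · rw [hP0 v h] at hPv
      exact Or.inl ((hq0 v h).2.2.2.mp hPv)
    · rw [hP1 v h] at hPv
      exact Or.inr ((hq1 v h).2.2.2.mp hPv)
  refine ⟨fun v => if v ∈ C 0 then q0 v else q1 v, {x, t x}, ?_, ?_, ?_, ?_, ?_, ?_⟩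
  · intro v hv
    rw [Finset.mem_insert, Finset.mem_singleton] at hv
    rcases hv with rfl | rfl
    · exact h0A hx0
    · exact h1A htx
  · intro v hv
    rcases (hmem v).mp hv with h | h
    · have hq := hq0 v h
      simp only [hP0 v h, hP0 (q0 v) hq.1]
      exact ⟨h0A hq.1, hq.2.1, hq.2.2.1⟩
    · have hq := hq1 v h
      simp only [hP1 v h, hP1 (q1 v) hq.1]
      exact ⟨h1A hq.1, hq.2.1, hq.2.2.1⟩
  · intro v hv
    rw [Finset.mem_insert, Finset.mem_singleton] at hv
    rcases hv with rfl | rfl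
    · refine ⟨by simp, ?_⟩
      simp only [hP0 v hx0]
      rw [((hq0 v hx0).2.2.2).mpr rfl]
      simp
    · refine ⟨?_, ?_⟩
      · rw [(ht x (h0A hx0)).2.1]
        simp
      · simp only [hP1 (t x) htx]
        rw [((hq1 (t x) htx).2.2.2).mpr rfl]
        simp
  · intro v hv hPv
    refine ⟨?_, ?_⟩
    · rw [Finset.mem_insert, Finset.mem_singleton]
      exact key v hv hPv
    · intro h
      rcases (hmem v).mp hv with h0 | h1
      · have hnv : n v ∈ C 0 := (hC 0).2.1 v h0
        simp only [hP0 v h0] at hPv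
        simp only [hP0 (n v) hnv] at h
        have e1 := (hq0 v h0).2.2.2.mp hPv
        have e2 := (hq0 (n v) hnv).2.2.2.mp h
        exact hn v (e2.trans e1.symm)
      · have hnv : n v ∈ C 1 := (hC 1).2.1 v h1
        simp only [hP1 v h1] at hPv
        simp only [hP1 (n v) hnv] at h
        have e1 := (hq1 v h1).2.2.2.mp hPv
        have e2 := (hq1 (n v) hnv).2.2.2.mp h
        exact hn v (e2.trans e1.symm)
  · refine le_trans (Finset.card_le_card (t := {x, t x}) ?_) (le_trans Finset.card_le_two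
      (by norm_num))
    intro v hv
    rw [Finset.mem_filter] at hv
    rw [Finset.mem_insert, Finset.mem_singleton]
    exact key v hv.1 hv.2
  · intro S hS hi ho
    have h := three_le n A S t ht hb hS hi ho
    by_contra hcon
    push Not at hcon
    have hsub : (S.filter fun y => t y ∉ S) ⊆ {x, t x} := by
      intro y hy
      rw [Finset.mem_filter] at hy
      by_contra hy2
      exact hy.2 (hcon y hy.1 hy2)
    have := Finset.card_le_card hsub
    have h2 : ({x, t x} : Finset V).card ≤ 2 := Finset.card_le_two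
    have h3' : dm t S = (S.filter fun y => t y ∉ S).card := rfl
    omega

end Pool.Agent.Helper71.FRC.TWO
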